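import Mathlib

/-!
# MP_a2af9e_co: the multiplicity of `-1` for orientations of complete multipartite graphs

Group the orderings of the vertices by swapping the positions `2j, 2j+1`.  This gives
`A_D(t) = ∑_σ t ^ rest(σ) * ((1 + t) / 2) ^ e(σ)` where `e(σ)` is the number of blocks
`{2j, 2j+1}` that carry an edge and `rest(σ)` counts the inverted arcs between different blocks.
Always `e(σ) ≥ ⌊r/2⌋`.  If `e(σ) = ⌊r/2⌋`, the parity of `rest(σ)` only depends on the matching
formed by the blocks, and the number of such matchings is odd.  So the value at `-1` of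
`A_D(t) / (1 + t) ^ ⌊r/2⌋` is a positive integer multiple of an odd integer, up to a power of two.
-/

set_option autoImplicit false

open Finset Polynomial

namespace Pool.Agent.Results.MP_a2af9e_co.Multipartite

section parity

variable {V ι : Type} [Fintype V] [DecidableEq V]

/-- `u` is exposed by `τ`: it is fixed, or moved to another part -/
def Exposed (c : V → ι) (τ : Equiv.Perm V) (u : V) : Prop := τ u = u ∨ c (τ u) ≠ c u

/-- `τ` is an involution supported on `S` with at most one fixed point in `S` and with at most one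
exposed point in each part of `S` -/
def IsGood (c : V → ι) (S : Finset V) (τ : Equiv.Perm V) : Prop :=
  (∀ u, τ (τ u) = u) ∧ (∀ u, u ∉ S → τ u = u) ∧
    (∀ u ∈ S, ∀ v ∈ S, τ u = u → τ v = v → u = v) ∧
    (∀ u ∈ S, ∀ v ∈ S, c u = c v → Exposed c τ u → Exposed c τ v → u = v)

open Classical in
/-- the set of good involutions -/
noncomputable def good (c : V → ι) (S : Finset V) : Finset (Equiv.Perm V) :=
  Finset.univ.filter (IsGood c S)

theorem mem_good (c : V → ι) (S : Finset V) (τ : Equiv.Perm V) :
    τ ∈ good c S ↔ IsGood c S τ := by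
  classical
  unfold good; simp

theorem good_conj (c : V → ι) (S : Finset V) {x y : V} (hx : x ∈ S) (hy : y ∈ S)
    (hc : c x = c y) {τ : Equiv.Perm V} (h : IsGood c S τ) :
    IsGood c S (Equiv.swap x y * τ * Equiv.swap x y) := by
  have hcs : ∀ u, c (Equiv.swap x y u) = c u := by
    intro u
    rw [Equiv.swap_apply_def]
    split_ifs with h1 h2
    · rw [h1]; exact hc.symm
    · rw [h2]; exact hc
    · rfl
  have hS : ∀ u, Equiv.swap x y u ∈ S ↔ u ∈ S := by
    intro u
    rw [Equiv.swap_apply_def]
    split_ifs with h1 h2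
    · rw [h1]; exact ⟨fun _ => hx, fun _ => hy⟩
    · rw [h2]; exact ⟨fun _ => hy, fun _ => hx⟩
    · exact Iff.rfl
  have hfix : ∀ u, (Equiv.swap x y * τ * Equiv.swap x y) u = u ↔
      τ (Equiv.swap x y u) = Equiv.swap x y u := by
    intro u
    simp only [Equiv.Perm.mul_apply]
    constructor
    · intro h1
      rw [← Equiv.swap_apply_self x y (τ (Equiv.swap x y u)), h1] 
    · intro h1
      rw [h1, Equiv.swap_apply_self]
  have hexp : ∀ u, Exposed c (Equiv.swap x y * τ * Equiv.swap x y) u ↔
      Exposed c τ (Equiv.swap x y u) := by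
    intro u
    unfold Exposed
    rw [hfix]
    simp only [Equiv.Perm.mul_apply, hcs]
  obtain ⟨h1, h2, h3, h4⟩ := h
  refine ⟨?_, ?_, ?_, ?_⟩
  · intro u
    simp [Equiv.Perm.mul_apply, h1]
  · intro u hu
    rw [hfix]
    apply h2
    rw [hS]; exact hu
  · intro u hu v hv hu' hv'
    rw [hfix] at hu' hv'
    exact (Equiv.swap x y).injective (h3 _ ((hS u).mpr hu) _ ((hS v).mpr hv) hu' hv')
  · intro u hu v hv huv hu' hv'
    rw [hexp] at hu' hv'
    exact (Equiv.swap x y).injective
      (h4 _ ((hS u).mpr hu) _ ((hS v).mpr hv) (by rw [hcs, hcs]; exact huv) hu' hv')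

theorem good_reduce (c : V → ι) (S : Finset V) {x y : V} (hx : x ∈ S) (hy : y ∈ S) (hxy : x ≠ y)
    (hc : c x = c y) :
    ((good c S).card : ZMod 2) = ((good c (S \ {x, y})).card : ZMod 2) := by
  classical
  have hsplit : (good c S).card = ((good c S).filter (fun τ => τ x = y)).card +
      ((good c S).filter (fun τ => ¬ τ x = y)).card :=
    (Finset.card_filter_add_card_filter_not _).symm
  have hzero : (((good c S).filter (fun τ => ¬ τ x = y)).card : ZMod 2) = 0 := by
    rw [Finset.card_eq_sum_ones]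
    push_cast
    refine Finset.sum_involution (fun τ _ => Equiv.swap x y * τ * Equiv.swap x y) ?_ ?_ ?_ ?_
    · intro τ _; decide
    · intro τ hτ _ heq
      rw [Finset.mem_filter, mem_good] at hτ
      obtain ⟨⟨h1, h2, h3, h4⟩, h5⟩ := hτ
      have h6 : Equiv.swap x y (τ y) = τ x := by
        have := congrArg (fun f : Equiv.Perm V => f x) heq
        simpa [Equiv.Perm.mul_apply] using this
      rw [Equiv.swap_apply_def] at h6
      split_ifs at h6 with h7 h8
      · apply h5; exact h6.symm
      · exact hxy (h3 x hx y hy h6.symm h8)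
      · exact hxy (τ.injective h6.symm)
    · intro τ hτ
      rw [Finset.mem_filter, mem_good] at hτ ⊢
      refine ⟨good_conj c S hx hy hc hτ.1, ?_⟩
      intro h
      apply hτ.2
      simp only [Equiv.Perm.mul_apply, Equiv.swap_apply_left] at h
      have h1 : τ y = x := by
        have := congrArg (Equiv.swap x y) h
        simpa using this
      rw [← h1]; exact hτ.1.1 y
    · intro τ _
      ext u
      simp [Equiv.Perm.mul_apply]
  have hbij : ((good c S).filter (fun τ => τ x = y)).card = (good c (S \ {x, y})).card := by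
    refine Finset.card_bij' (fun τ _ => τ * Equiv.swap x y) (fun τ _ => τ * Equiv.swap x y)
      ?_ ?_ ?_ ?_
    · intro τ hτ
      rw [Finset.mem_filter, mem_good] at hτ
      obtain ⟨⟨h1, h2, h3, h4⟩, h5⟩ := hτ
      have h6 : τ y = x := by rw [← h5]; exact h1 x
      have hval : ∀ u, u ≠ x → u ≠ y → (τ * Equiv.swap x y) u = τ u := by
        intro u hux huy
        rw [Equiv.Perm.mul_apply, Equiv.swap_apply_of_ne_of_ne hux huy]
      have hvx : (τ * Equiv.swap x y) x = x := by simp [Equiv.Perm.mul_apply, h6]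
      have hvy : (τ * Equiv.swap x y) y = y := by simp [Equiv.Perm.mul_apply, h5]
      rw [mem_good]
      refine ⟨?_, ?_, ?_, ?_⟩
      · intro u
        by_cases hux : u = x
        · rw [hux, hvx, hvx]
        by_cases huy : u = y
        · rw [huy, hvy, hvy]
        rw [hval u hux huy, hval, h1]
        · intro h; apply huy; rw [← h1 u, h, h5]
        · intro h; apply hux; rw [← h1 u, h, h6]
      · intro u hu
        by_cases hux : u = x
        · rw [hux, hvx]
        by_cases huy : u = y
        · rw [huy, hvy]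
        rw [hval u hux huy]
        apply h2
        intro h; apply hu
        simp [h, hux, huy]
      · intro u hu v hv hu' hv'
        simp only [Finset.mem_sdiff, Finset.mem_insert, Finset.mem_singleton, not_or] at hu hv
        rw [hval _ hu.2.1 hu.2.2] at hu'
        rw [hval _ hv.2.1 hv.2.2] at hv'
        exact h3 u hu.1 v hv.1 hu' hv'
      · intro u hu v hv huv hu' hv'
        simp only [Finset.mem_sdiff, Finset.mem_insert, Finset.mem_singleton, not_or] at hu hv
        unfold Exposed at hu' hv'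
        rw [hval _ hu.2.1 hu.2.2] at hu'
        rw [hval _ hv.2.1 hv.2.2] at hv'
        exact h4 u hu.1 v hv.1 huv hu' hv'
    · intro τ hτ
      rw [mem_good] at hτ
      obtain ⟨h1, h2, h3, h4⟩ := hτ
      have hfx : τ x = x := h2 x (by simp)
      have hfy : τ y = y := h2 y (by simp)
      have hval : ∀ u, u ≠ x → u ≠ y → (τ * Equiv.swap x y) u = τ u := by
        intro u hux huy
        rw [Equiv.Perm.mul_apply, Equiv.swap_apply_of_ne_of_ne hux huy]
      have hvx : (τ * Equiv.swap x y) x = y := by simp [Equiv.Perm.mul_apply, hfy]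
      have hvy : (τ * Equiv.swap x y) y = x := by simp [Equiv.Perm.mul_apply, hfx]
      rw [Finset.mem_filter, mem_good]
      refine ⟨⟨?_, ?_, ?_, ?_⟩, hvx⟩
      · intro u
        by_cases hux : u = x
        · rw [hux, hvx, hvy]
        by_cases huy : u = y
        · rw [huy, hvy, hvx]
        rw [hval u hux huy, hval, h1]
        · intro h; apply hux; exact τ.injective (h.trans hfx.symm)
        · intro h; apply huy; exact τ.injective (h.trans hfy.symm)
      · intro u hu
        have hux : u ≠ x := fun h => hu (h ▸ hx)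
        have huy : u ≠ y := fun h => hu (h ▸ hy)
        rw [hval u hux huy]
        apply h2
        simp [hu]
      · intro u hu v hv hu' hv'
        have hne : ∀ w, (τ * Equiv.swap x y) w = w → w ≠ x ∧ w ≠ y := by
          intro w hw
          refine ⟨?_, ?_⟩
          · intro h; rw [h, hvx] at hw; exact hxy hw.symm
          · intro h; rw [h, hvy] at hw; exact hxy hw
        obtain ⟨a1, a2⟩ := hne u hu'
        obtain ⟨b1, b2⟩ := hne v hv'
        rw [hval _ a1 a2] at hu'
        rw [hval _ b1 b2] at hv'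
        exact h3 u (by simp [hu, a1, a2]) v (by simp [hv, b1, b2]) hu' hv'
      · intro u hu v hv huv hu' hv'
        have hne : ∀ w, Exposed c (τ * Equiv.swap x y) w → w ≠ x ∧ w ≠ y := by
          intro w hw
          unfold Exposed at hw
          refine ⟨?_, ?_⟩
          · intro h; rw [h, hvx] at hw
            rcases hw with hw | hw
            · exact hxy hw.symm
            · exact hw hc.symm
          · intro h; rw [h, hvy] at hw
            rcases hw with hw | hw
            · exact hxy hw
            · exact hw hc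
        obtain ⟨a1, a2⟩ := hne u hu'
        obtain ⟨b1, b2⟩ := hne v hv'
        unfold Exposed at hu' hv'
        rw [hval _ a1 a2] at hu'
        rw [hval _ b1 b2] at hv'
        exact h4 u (by simp [hu, a1, a2]) v (by simp [hv, b1, b2]) huv hu' hv'
    · intro τ _; simp [mul_assoc]
    · intro τ _; simp [mul_assoc]
  rw [hsplit, hbij]
  push_cast
  rw [hzero, add_zero]

theorem good_small (c : V → ι) (S : Finset V) (hS : S.card ≤ 1) :
    ((good c S).card : ZMod 2) = 1 := by
  have h : good c S = {1} := by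
    ext τ
    rw [mem_good, Finset.mem_singleton]
    constructor
    · rintro ⟨h1, h2, h3, h4⟩
      ext u
      rw [Equiv.Perm.one_apply]
      by_cases hu : u ∈ S
      · have : τ u ∈ S := by
          by_contra h
          have h5 := h2 _ h
          rw [h1] at h5
          rw [← h5] at h
          exact h hu
        exact Finset.card_le_one.mp hS _ this _ hu
      · exact h2 u hu
    · rintro rfl
      refine ⟨fun u => rfl, fun u _ => rfl, ?_, ?_⟩
      · intro u hu v hv _ _
        exact Finset.card_le_one.mp hS _ hu _ hv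
      · intro u hu v hv _ _ _
        exact Finset.card_le_one.mp hS _ hu _ hv
  rw [h]; simp

theorem good_const (S : Finset V) :
    ((good (fun _ : V => ()) S).card : ZMod 2) = 1 := by
  induction hn : S.card using Nat.strong_induction_on generalizing S with
  | _ n ih =>
    by_cases h : S.card ≤ 1
    · exact good_small _ S h
    · push Not at h
      obtain ⟨x, hx, y, hy, hxy⟩ := Finset.one_lt_card.mp h
      rw [good_reduce _ S hx hy hxy rfl]
      apply ih _ _ _ rfl
      rw [← hn]
      apply Finset.card_lt_card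
      refine ⟨Finset.sdiff_subset, ?_⟩
      intro hsub
      have := hsub hx
      simp at this

theorem good_odd (c : V → ι) (S : Finset V) :
    ((good c S).card : ZMod 2) = 1 := by
  induction hn : S.card using Nat.strong_induction_on generalizing S with
  | _ n ih =>
    by_cases h : ∃ x ∈ S, ∃ y ∈ S, x ≠ y ∧ c x = c y
    · obtain ⟨x, hx, y, hy, hxy, hc⟩ := h
      rw [good_reduce _ S hx hy hxy hc]
      apply ih _ _ _ rfl
      rw [← hn]
      apply Finset.card_lt_card
      refine ⟨Finset.sdiff_subset, ?_⟩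
      intro hsub
      have := hsub hx
      simp at this
    · push Not at h
      rw [← good_const S]
      congr 2
      ext τ
      rw [mem_good, mem_good]
      constructor
      · rintro ⟨h1, h2, h3, h4⟩
        refine ⟨h1, h2, h3, ?_⟩
        intro u hu v hv _ hu' hv'
        rcases hu' with hu' | hu'
        · rcases hv' with hv' | hv'
          · exact h3 u hu v hv hu' hv'
          · exact absurd rfl hv'
        · exact absurd rfl hu'
      · rintro ⟨h1, h2, h3, h4⟩
        refine ⟨h1, h2, h3, ?_⟩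
        intro u hu v hv huv _ _
        by_contra hne
        exact h u hu v hv hne huv

end parity


section swaps

variable {n : ℕ} (A : Fin n → Fin n → Prop)

open Classical in
/-- the number of arcs `u → v` with `σ u > σ v` -/
noncomputable def des (σ : Equiv.Perm (Fin n)) : ℕ :=
  (Finset.univ.filter fun e : Fin n × Fin n => A e.1 e.2 ∧ σ e.2 < σ e.1).card

open Classical in
/-- inverted arcs, not counting those inside one of the first `j` blocks of two positions -/
noncomputable def inter (j : ℕ) (σ : Equiv.Perm (Fin n)) : ℕ :=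
  (Finset.univ.filter fun e : Fin n × Fin n => A e.1 e.2 ∧ σ e.2 < σ e.1 ∧
    ¬ ((σ e.1).val / 2 = (σ e.2).val / 2 ∧ (σ e.1).val / 2 < j)).card

open Classical in
/-- arcs inside one of the first `j` blocks -/
noncomputable def ein (j : ℕ) (σ : Equiv.Perm (Fin n)) : ℕ :=
  (Finset.univ.filter fun e : Fin n × Fin n => A e.1 e.2 ∧
    (σ e.1).val / 2 = (σ e.2).val / 2 ∧ (σ e.1).val / 2 < j).card

open Classical in
noncomputable def bin (j : ℕ) (σ : Equiv.Perm (Fin n)) : ℕ :=
  (Finset.univ.filter fun e : Fin n × Fin n => A e.1 e.2 ∧ σ e.2 < σ e.1 ∧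
    (σ e.1).val / 2 = (σ e.2).val / 2 ∧ (σ e.1).val / 2 = j).card

open Classical in
noncomputable def ball (j : ℕ) (σ : Equiv.Perm (Fin n)) : ℕ :=
  (Finset.univ.filter fun e : Fin n × Fin n => A e.1 e.2 ∧
    (σ e.1).val / 2 = (σ e.2).val / 2 ∧ (σ e.1).val / 2 = j).card

/-- swap the two positions of block `j` -/
def sw (n j : ℕ) : Equiv.Perm (Fin n) :=
  if h : 2 * j + 1 < n then Equiv.swap ⟨2 * j, by omega⟩ ⟨2 * j + 1, h⟩ else 1

theorem sw_val (j : ℕ) (x : Fin n) : (sw n j x).val =
    if 2 * j + 1 < n then (if x.val = 2 * j then 2 * j + 1 else if x.val = 2 * j + 1 then 2 * j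
      else x.val) else x.val := by
  unfold sw
  split_ifs with h h1 h2
  · have : x = ⟨2 * j, by omega⟩ := Fin.ext h1
    rw [this, Equiv.swap_apply_left]
  · have : x = ⟨2 * j + 1, by omega⟩ := Fin.ext h2
    rw [this, Equiv.swap_apply_right]
  · rw [Equiv.swap_apply_of_ne_of_ne]
    · intro h'; exact h1 (congrArg Fin.val h')
    · intro h'; exact h2 (congrArg Fin.val h')
  · rfl

theorem des_eq (σ : Equiv.Perm (Fin n)) : des A σ = inter A 0 σ := by
  classical
  unfold des inter
  congr 1
  ext e
  simp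

theorem ein_zero (σ : Equiv.Perm (Fin n)) : ein A 0 σ = 0 := by
  classical
  unfold ein
  rw [Finset.card_eq_zero, Finset.filter_eq_empty_iff]
  intro e _ h
  omega

theorem inter_succ (j : ℕ) (σ : Equiv.Perm (Fin n)) :
    inter A j σ = inter A (j + 1) σ + bin A j σ := by
  classical
  unfold inter bin
  rw [← Finset.card_union_of_disjoint]
  · congr 1
    ext e
    simp only [Finset.mem_filter, Finset.mem_univ, true_and, Finset.mem_union]
    constructor
    · rintro ⟨h1, h2, h3⟩
      by_cases h : (σ e.1).val / 2 = (σ e.2).val / 2 ∧ (σ e.1).val / 2 = j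
      · exact Or.inr ⟨h1, h2, h⟩
      · exact Or.inl ⟨h1, h2, by omega⟩
    · rintro (⟨h1, h2, h3⟩ | ⟨h1, h2, h3⟩)
      · exact ⟨h1, h2, by omega⟩
      · exact ⟨h1, h2, by omega⟩
  · rw [Finset.disjoint_filter]
    rintro e _ ⟨h1, h2, h3⟩ ⟨h4, h5, h6⟩
    omega

theorem ein_succ (j : ℕ) (σ : Equiv.Perm (Fin n)) :
    ein A (j + 1) σ = ein A j σ + ball A j σ := by
  classical
  unfold ein ball
  rw [← Finset.card_union_of_disjoint]
  · congr 1
    ext e
    simp only [Finset.mem_filter, Finset.mem_univ, true_and, Finset.mem_union]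
    constructor
    · rintro ⟨h1, h2, h3⟩
      by_cases h : (σ e.1).val / 2 = j
      · exact Or.inr ⟨h1, h2, h⟩
      · exact Or.inl ⟨h1, h2, by omega⟩
    · rintro (⟨h1, h2, h3⟩ | ⟨h1, h2, h3⟩)
      · exact ⟨h1, h2, by omega⟩
      · exact ⟨h1, h2, by omega⟩
  · rw [Finset.disjoint_filter]
    rintro e _ ⟨h1, h2, h3⟩ ⟨h4, h5, h6⟩
    omega

theorem inter_sw (j : ℕ) (σ : Equiv.Perm (Fin n)) :
    inter A (j + 1) (sw n j * σ) = inter A (j + 1) σ := by
  classical
  unfold inter
  congr 1
  ext e
  simp only [Finset.mem_filter, Finset.mem_univ, true_and, Equiv.Perm.mul_apply, Fin.lt_def,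
    sw_val]
  have h1 := (σ e.1).isLt
  have h2 := (σ e.2).isLt
  generalize (σ e.1).val = a at *
  generalize (σ e.2).val = b at *
  constructor
  · rintro ⟨h, h3, h4⟩
    refine ⟨h, ?_, ?_⟩ <;> split_ifs at * <;> omega
  · rintro ⟨h, h3, h4⟩
    refine ⟨h, ?_, ?_⟩ <;> split_ifs at * <;> omega

theorem ein_sw (j : ℕ) (σ : Equiv.Perm (Fin n)) :
    ein A j (sw n j * σ) = ein A j σ := by
  classical
  unfold ein
  congr 1
  ext e
  simp only [Finset.mem_filter, Finset.mem_univ, true_and, Equiv.Perm.mul_apply, sw_val]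
  generalize (σ e.1).val = a at *
  generalize (σ e.2).val = b at *
  constructor
  · rintro ⟨h, h3, h4⟩
    refine ⟨h, ?_, ?_⟩ <;> split_ifs at * <;> omega
  · rintro ⟨h, h3, h4⟩
    refine ⟨h, ?_, ?_⟩ <;> split_ifs at * <;> omega

theorem bin_sw (hA : ∀ u, ¬ A u u) (j : ℕ) (σ : Equiv.Perm (Fin n)) :
    bin A j σ + bin A j (sw n j * σ) = ball A j σ := by
  classical
  unfold bin ball
  rw [← Finset.card_union_of_disjoint]
  · congr 1
    ext e
    simp only [Finset.mem_filter, Finset.mem_univ, true_and, Finset.mem_union,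
      Equiv.Perm.mul_apply, Fin.lt_def, sw_val]
    have h1 := (σ e.1).isLt
    have h2 := (σ e.2).isLt
    have hne : A e.1 e.2 → (σ e.1).val ≠ (σ e.2).val := by
      intro h h'
      have h3 : e.1 = e.2 := σ.injective (Fin.ext h')
      rw [h3] at h
      exact hA _ h
    generalize (σ e.1).val = a at *
    generalize (σ e.2).val = b at *
    constructor
    · rintro (⟨h, h3, h4, h5⟩ | ⟨h, h3, h4, h5⟩)
      · exact ⟨h, h4, h5⟩
      · refine ⟨h, ?_, ?_⟩ <;> split_ifs at * <;> omega
    · rintro ⟨h, h4, h5⟩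
      have hne := hne h
      by_cases hab : b < a
      · exact Or.inl ⟨h, hab, h4, h5⟩
      · right
        refine ⟨h, ?_, ?_, ?_⟩ <;> split_ifs at * <;> omega
  · rw [Finset.disjoint_filter]
    rintro e _ ⟨h1, h2, h3, h4⟩ ⟨h5, h6, h7, h8⟩
    simp only [Equiv.Perm.mul_apply, Fin.lt_def, sw_val] at *
    have h1 := (σ e.1).isLt
    have h2 := (σ e.2).isLt
    generalize (σ e.1).val = a at *
    generalize (σ e.2).val = b at *
    split_ifs at * <;> omega

theorem ball_le (hA : ∀ u, ¬ A u u) (hA2 : ∀ u v, A u v → ¬ A v u) (j : ℕ)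
    (σ : Equiv.Perm (Fin n)) : ball A j σ ≤ 1 := by
  classical
  unfold ball
  rw [Finset.card_le_one]
  intro e he f hf
  simp only [Finset.mem_filter, Finset.mem_univ, true_and] at he hf
  obtain ⟨h1, h2, h3⟩ := he
  obtain ⟨g1, g2, g3⟩ := hf
  have hne : ∀ u v, A u v → (σ u).val ≠ (σ v).val := by
    intro u v h h'
    have h3 : u = v := σ.injective (Fin.ext h')
    rw [h3] at h
    exact hA _ h
  have e1 := hne _ _ h1
  have e2 := hne _ _ g1
  by_cases h : (σ e.1).val = (σ f.1).val
  · have h' : (σ e.2).val = (σ f.2).val := by omega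
    exact Prod.ext (σ.injective (Fin.ext h)) (σ.injective (Fin.ext h'))
  · have h' : (σ e.1).val = (σ f.2).val := by omega
    have h'' : (σ e.2).val = (σ f.1).val := by omega
    have k1 := σ.injective (Fin.ext h')
    have k2 := σ.injective (Fin.ext h'')
    rw [k1, k2] at h1
    exact absurd g1 (hA2 _ _ h1)

/-- the polynomial `(1 + X) / 2` -/
noncomputable def Y : ℚ[X] := C (1 / 2) * (1 + X)

theorem two_Y : (2 : ℚ[X]) * Y = 1 + X := by
  unfold Y
  rw [← mul_assoc, show (2 : ℚ[X]) = C 2 from rfl, ← C_mul]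
  norm_num

theorem sum_step (hA : ∀ u, ¬ A u u) (hA2 : ∀ u v, A u v → ¬ A v u) (j : ℕ) :
    ∑ σ : Equiv.Perm (Fin n), (X : ℚ[X]) ^ inter A j σ * Y ^ ein A j σ =
      ∑ σ : Equiv.Perm (Fin n), (X : ℚ[X]) ^ inter A (j + 1) σ * Y ^ ein A (j + 1) σ := by
  have h1 : ∑ σ : Equiv.Perm (Fin n), (X : ℚ[X]) ^ inter A j σ * Y ^ ein A j σ =
      ∑ σ : Equiv.Perm (Fin n), (X : ℚ[X]) ^ inter A j (sw n j * σ) *
        Y ^ ein A j (sw n j * σ) := by
    exact (Equiv.sum_comp (Equiv.mulLeft (sw n j))
      (fun σ => (X : ℚ[X]) ^ inter A j σ * Y ^ ein A j σ)).symm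
  have h2 : (2 : ℚ[X]) * ∑ σ : Equiv.Perm (Fin n), (X : ℚ[X]) ^ inter A j σ * Y ^ ein A j σ =
      2 * ∑ σ : Equiv.Perm (Fin n), (X : ℚ[X]) ^ inter A (j + 1) σ * Y ^ ein A (j + 1) σ := by
    conv_lhs => rw [two_mul]; rhs; rw [h1]
    rw [← Finset.sum_add_distrib, Finset.mul_sum]
    refine Finset.sum_congr rfl fun σ _ => ?_
    rw [ein_sw, inter_succ A j σ, inter_succ A j (sw n j * σ), inter_sw, ein_succ, pow_add,
      pow_add, pow_add]
    have h3 := bin_sw A hA j σ
    have h4 := ball_le A hA hA2 j σ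
    have h5 : (X : ℚ[X]) ^ bin A j σ + X ^ bin A j (sw n j * σ) = 2 * Y ^ ball A j σ := by
      rcases Nat.le_one_iff_eq_zero_or_eq_one.mp h4 with h | h
      · have a1 : bin A j σ = 0 := by omega
        have a2 : bin A j (sw n j * σ) = 0 := by omega
        rw [a1, a2, h]; norm_num
      · rw [h, pow_one, two_Y]
        rcases Nat.eq_zero_or_pos (bin A j σ) with a1 | a1
        · have a2 : bin A j (sw n j * σ) = 1 := by omega
          rw [a1, a2]; ring
        · have a2 : bin A j (sw n j * σ) = 0 := by omega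
          have a3 : bin A j σ = 1 := by omega
          rw [a2, a3]; ring
    linear_combination (X : ℚ[X]) ^ inter A (j + 1) σ * Y ^ ein A j σ * h5
  have h0 : (2 : ℚ[X]) ≠ 0 := by norm_num
  exact mul_left_cancel₀ h0 h2

theorem sum_des (hA : ∀ u, ¬ A u u) (hA2 : ∀ u v, A u v → ¬ A v u) (j : ℕ) :
    ∑ σ : Equiv.Perm (Fin n), (X : ℚ[X]) ^ des A σ =
      ∑ σ : Equiv.Perm (Fin n), (X : ℚ[X]) ^ inter A j σ * Y ^ ein A j σ := by
  induction j with
  | zero =>
    refine Finset.sum_congr rfl fun σ _ => ?_
    rw [des_eq, ein_zero, pow_zero, mul_one]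
  | succ j ih => rw [ih, sum_step A hA hA2 j]

end swaps


section matchings

variable {n : ℕ}

/-- the partner of a position -/
def rhoFun (n : ℕ) (x : Fin n) : Fin n :=
  ⟨if x.val % 2 = 0 then (if x.val + 1 < n then x.val + 1 else x.val) else x.val - 1, by
    have := x.isLt
    split_ifs <;> omega⟩

theorem rhoFun_invol (n : ℕ) : Function.Involutive (rhoFun n) := by
  intro x
  apply Fin.ext
  unfold rhoFun
  have := x.isLt
  simp only
  split_ifs <;> omega

/-- the permutation exchanging the two positions of each block -/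
def rho (n : ℕ) : Equiv.Perm (Fin n) := (rhoFun_invol n).toPerm

theorem rho_val (x : Fin n) : (rho n x).val =
    if x.val % 2 = 0 then (if x.val + 1 < n then x.val + 1 else x.val) else x.val - 1 := rfl

theorem rho_rho (x : Fin n) : rho n (rho n x) = x := rhoFun_invol n x

/-- the matching of the vertices defined by an ordering -/
def tau (σ : Equiv.Perm (Fin n)) : Equiv.Perm (Fin n) := σ⁻¹ * rho n * σ

theorem sigma_tau (σ : Equiv.Perm (Fin n)) (u : Fin n) : σ (tau σ u) = rho n (σ u) := by
  simp [tau, Equiv.Perm.mul_apply]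

theorem tau_tau (σ : Equiv.Perm (Fin n)) (u : Fin n) : tau σ (tau σ u) = u := by
  apply σ.injective
  rw [sigma_tau, sigma_tau, rho_rho]

theorem rho_fix {x y : Fin n} (hx : rho n x = x) (hy : rho n y = y) : x = y := by
  have h1 := congrArg Fin.val hx
  have h2 := congrArg Fin.val hy
  rw [rho_val] at h1 h2
  have := x.isLt
  have := y.isLt
  apply Fin.ext
  split_ifs at h1 h2 <;> omega

theorem tau_fix (σ : Equiv.Perm (Fin n)) {u v : Fin n} (hu : tau σ u = u) (hv : tau σ v = v) :
    u = v := by
  apply σ.injective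
  apply rho_fix
  · rw [← sigma_tau, hu]
  · rw [← sigma_tau, hv]

theorem same_block (σ : Equiv.Perm (Fin n)) {u v : Fin n} (huv : u ≠ v) :
    (σ u).val / 2 = (σ v).val / 2 ↔ v = tau σ u := by
  have hne : (σ u).val ≠ (σ v).val := fun h => huv (σ.injective (Fin.ext h))
  have h1 := (σ u).isLt
  have h2 := (σ v).isLt
  constructor
  · intro h
    apply σ.injective
    rw [sigma_tau]
    apply Fin.ext
    rw [rho_val]
    split_ifs <;> omega
  · intro h
    have h3 : (σ v).val = (rho n (σ u)).val := by rw [← sigma_tau, ← h]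
    rw [rho_val] at h3
    split_ifs at h3 <;> omega

variable (A : Fin n → Fin n → Prop)

theorem ein_eq (hA : ∀ u, ¬ A u u) (σ : Equiv.Perm (Fin n)) [DecidablePred fun u => A u (tau σ u)] :
    ein A n σ = (Finset.univ.filter fun u => A u (tau σ u)).card := by
  classical
  unfold ein
  refine Finset.card_bij' (fun e _ => e.1) (fun u _ => (u, tau σ u)) ?_ ?_ ?_ ?_
  · intro e he
    simp only [Finset.mem_filter, Finset.mem_univ, true_and] at he ⊢
    obtain ⟨h1, h2, h3⟩ := he
    have hne : e.1 ≠ e.2 := by intro h; rw [← h] at h1; exact hA _ h1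
    rw [← (same_block σ hne).mp h2]; exact h1
  · intro u hu
    simp only [Finset.mem_filter, Finset.mem_univ, true_and] at hu ⊢
    have hne : u ≠ tau σ u := by intro h; rw [← h] at hu; exact hA _ hu
    have hlt := (σ u).isLt
    exact ⟨hu, (same_block σ hne).mpr rfl, by omega⟩
  · intro e he
    simp only [Finset.mem_filter, Finset.mem_univ, true_and] at he
    obtain ⟨h1, h2, h3⟩ := he
    have hne : e.1 ≠ e.2 := by intro h; rw [← h] at h1; exact hA _ h1
    exact Prod.ext rfl ((same_block σ hne).mp h2).symm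
  · intro u _
    rfl

open Classical in
/-- inverted arcs between different blocks -/
noncomputable def rest (σ : Equiv.Perm (Fin n)) : ℕ :=
  (Finset.univ.filter fun e : Fin n × Fin n => A e.1 e.2 ∧ σ e.2 < σ e.1 ∧ e.2 ≠ tau σ e.1).card

theorem inter_eq (hA : ∀ u, ¬ A u u) (σ : Equiv.Perm (Fin n)) :
    inter A n σ = rest A σ := by
  classical
  unfold inter rest
  congr 1
  ext e
  simp only [Finset.mem_filter, Finset.mem_univ, true_and]
  constructor
  · rintro ⟨h1, h2, h3⟩
    refine ⟨h1, h2, ?_⟩
    intro h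
    apply h3
    have hne : e.1 ≠ e.2 := by intro h; rw [← h] at h1; exact hA _ h1
    have hlt := (σ e.1).isLt
    exact ⟨(same_block σ hne).mpr h, by omega⟩
  · rintro ⟨h1, h2, h3⟩
    refine ⟨h1, h2, ?_⟩
    rintro ⟨h, _⟩
    apply h3
    have hne : e.1 ≠ e.2 := by intro h; rw [← h] at h1; exact hA _ h1
    exact (same_block σ hne).mp h

end matchings

section counting

variable {V ι : Type} [Fintype V] [DecidableEq V] [Fintype ι] [DecidableEq ι]

theorem part_parity (c : V → ι) (τ : Equiv.Perm V) (hτ : ∀ u, τ (τ u) = u) (i : ι)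
    [DecidablePred (Exposed c τ)] :
    ((Finset.univ.filter fun u => c u = i ∧ Exposed c τ u).card : ZMod 2) =
      ((Finset.univ.filter fun u => c u = i).card : ZMod 2) := by
  have h1 : (Finset.univ.filter fun u => c u = i).card =
      (Finset.univ.filter fun u => c u = i ∧ Exposed c τ u).card +
      (Finset.univ.filter fun u => c u = i ∧ ¬ Exposed c τ u).card := by
    rw [← Finset.filter_filter, ← Finset.filter_filter]
    exact (Finset.card_filter_add_card_filter_not _).symm
  have h2 : ((Finset.univ.filter fun u => c u = i ∧ ¬ Exposed c τ u).card : ZMod 2) = 0 := by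
    rw [Finset.card_eq_sum_ones]
    push_cast
    refine Finset.sum_involution (fun u _ => τ u) ?_ ?_ ?_ ?_
    · intro u _; decide
    · intro u hu _ h
      simp only [Finset.mem_filter, Finset.mem_univ, true_and] at hu
      exact hu.2 (Or.inl h)
    · intro u hu
      simp only [Finset.mem_filter, Finset.mem_univ, true_and] at hu ⊢
      unfold Exposed at hu ⊢
      push Not at hu ⊢
      rw [hτ]
      exact ⟨hu.2.2.trans hu.1, fun h => hu.2.1 h.symm, hu.2.2.symm⟩
    · intro u _; exact hτ u
  rw [h1]; push_cast; rw [h2, add_zero]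

/-- the number of parts of odd size -/
def oddParts (c : V → ι) : ℕ :=
  (Finset.univ.filter fun i : ι => Odd (Finset.univ.filter fun v : V => c v = i).card).card

theorem exposed_card (c : V → ι) (τ : Equiv.Perm V) (hτ : ∀ u, τ (τ u) = u)
    [DecidablePred (Exposed c τ)] :
    oddParts c ≤ (Finset.univ.filter (Exposed c τ)).card ∧
    (Finset.univ.filter (Exposed c τ)).card % 2 = oddParts c % 2 ∧
    ((Finset.univ.filter (Exposed c τ)).card = oddParts c ↔
      ∀ u v, c u = c v → Exposed c τ u → Exposed c τ v → u = v) := by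
  have hsum : (Finset.univ.filter (Exposed c τ)).card =
      ∑ i : ι, (Finset.univ.filter fun u => c u = i ∧ Exposed c τ u).card := by
    rw [Finset.card_eq_sum_card_fiberwise (f := c) (t := Finset.univ) (fun _ _ => by simp)]
    refine Finset.sum_congr rfl fun i _ => ?_
    congr 1
    ext u
    simp [and_comm]
  have hr : oddParts c = ∑ i : ι, (Finset.univ.filter fun v : V => c v = i).card % 2 := by
    unfold oddParts
    rw [Finset.card_filter]
    refine Finset.sum_congr rfl fun i _ => ?_
    split_ifs with h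
    · rw [Nat.odd_iff] at h; exact h.symm
    · rw [Nat.not_odd_iff] at h; exact h.symm
  have hp : ∀ i, (Finset.univ.filter fun u => c u = i ∧ Exposed c τ u).card % 2 =
      (Finset.univ.filter fun v : V => c v = i).card % 2 := by
    intro i
    have := part_parity c τ hτ i
    exact (ZMod.natCast_eq_natCast_iff' _ _ 2).mp this
  have hle : ∀ i ∈ (Finset.univ : Finset ι), (Finset.univ.filter fun v : V => c v = i).card % 2 ≤
      (Finset.univ.filter fun u => c u = i ∧ Exposed c τ u).card := by
    intro i _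
    rw [← hp i]
    exact Nat.mod_le _ _
  refine ⟨?_, ?_, ?_⟩
  · rw [hr, hsum]
    exact Finset.sum_le_sum hle
  · rw [hr, hsum, Finset.sum_nat_mod]
    simp_rw [hp]
  · rw [hr, hsum]
    constructor
    · intro h u v huv hu hv
      have h1 := (Finset.sum_eq_sum_iff_of_le hle).mp h.symm (c u) (Finset.mem_univ _)
      have h2 : (Finset.univ.filter fun w => c w = c u ∧ Exposed c τ w).card ≤ 1 := by
        rw [← h1]; omega
      exact Finset.card_le_one.mp h2 u (by simp [hu]) v (by simp [hv, huv])
    · intro h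
      refine Finset.sum_congr rfl fun i _ => ?_
      have h2 : (Finset.univ.filter fun w => c w = i ∧ Exposed c τ w).card ≤ 1 := by
        rw [Finset.card_le_one]
        intro a ha b hb
        simp only [Finset.mem_filter, Finset.mem_univ, true_and] at ha hb
        exact h a b (ha.1.trans hb.1.symm) ha.2 hb.2
      have h3 := hp i
      omega

end counting

section final

variable {n : ℕ} {ι : Type} [Fintype ι] [DecidableEq ι]

/-- `A` is the arc relation of an orientation of the complete multipartite graph whose parts are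
the nonempty fibres of `c` -/
def IsOrientation (c : Fin n → ι) (A : Fin n → Fin n → Prop) : Prop :=
  (∀ u v, A u v → c u ≠ c v) ∧ (∀ u v, c u ≠ c v → A u v ∨ A v u) ∧ (∀ u v, A u v → ¬ A v u)

omit [Fintype ι] [DecidableEq ι] in
theorem exposed_ein (c : Fin n → ι) (A : Fin n → Fin n → Prop) (h : IsOrientation c A)
    (σ : Equiv.Perm (Fin n)) [DecidablePred (Exposed c (tau σ))] :
    (Finset.univ.filter (Exposed c (tau σ))).card =
      (Finset.univ.filter fun u => tau σ u = u).card + 2 * ein A n σ := by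
  classical
  obtain ⟨hc, ht, has⟩ := h
  have hA : ∀ u, ¬ A u u := fun u hu => hc u u hu rfl
  have h1 : (Finset.univ.filter (Exposed c (tau σ))) =
      (Finset.univ.filter fun u => tau σ u = u) ∪ ((Finset.univ.filter fun u => A u (tau σ u)) ∪
        (Finset.univ.filter fun u => A (tau σ u) u)) := by
    ext u
    simp only [Finset.mem_filter, Finset.mem_univ, true_and, Finset.mem_union]
    unfold Exposed
    constructor
    · rintro (h | h)
      · exact Or.inl h
      · exact Or.inr ((ht _ _ h).symm)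
    · rintro (h | h | h)
      · exact Or.inl h
      · exact Or.inr (hc _ _ h).symm
      · exact Or.inr (hc _ _ h)
  have h2 : (Finset.univ.filter fun u => A (tau σ u) u).card =
      (Finset.univ.filter fun u => A u (tau σ u)).card := by
    refine Finset.card_bij' (fun u _ => tau σ u) (fun u _ => tau σ u) ?_ ?_ ?_ ?_
    · intro u hu
      simp only [Finset.mem_filter, Finset.mem_univ, true_and] at hu ⊢
      rw [tau_tau]; exact hu
    · intro u hu
      simp only [Finset.mem_filter, Finset.mem_univ, true_and] at hu ⊢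
      rw [tau_tau]; exact hu
    · intro u _; exact tau_tau σ u
    · intro u _; exact tau_tau σ u
  rw [h1, Finset.card_union_of_disjoint, Finset.card_union_of_disjoint, h2, ein_eq A hA σ, two_mul]
  · rw [Finset.disjoint_filter]
    intro u _ h3 h4
    exact has _ _ h3 h4
  · rw [Finset.disjoint_left]
    intro u h3 h4
    simp only [Finset.mem_filter, Finset.mem_univ, true_and, Finset.mem_union] at h3 h4
    rw [h3] at h4
    rcases h4 with h4 | h4 <;> exact hA _ h4

theorem ein_bound (c : Fin n → ι) (A : Fin n → Fin n → Prop) (h : IsOrientation c A)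
    (σ : Equiv.Perm (Fin n)) :
    oddParts c / 2 ≤ ein A n σ ∧ (ein A n σ = oddParts c / 2 ↔ tau σ ∈ good c Finset.univ) := by
  classical
  have h1 := exposed_ein c A h σ
  obtain ⟨h2, h3, h4⟩ := exposed_card c (tau σ) (tau_tau σ)
  have h5 : (Finset.univ.filter fun u => tau σ u = u).card ≤ 1 := by
    rw [Finset.card_le_one]
    intro u hu v hv
    simp only [Finset.mem_filter, Finset.mem_univ, true_and] at hu hv
    exact tau_fix σ hu hv
  refine ⟨by omega, ?_⟩
  have h6 : ein A n σ = oddParts c / 2 ↔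
      (Finset.univ.filter (Exposed c (tau σ))).card = oddParts c := by omega
  rw [h6, h4, mem_good]
  constructor
  · intro h7
    refine ⟨tau_tau σ, fun u hu => absurd (Finset.mem_univ u) hu, ?_, ?_⟩
    · intro u _ v _ hu hv
      exact tau_fix σ hu hv
    · intro u _ v _ huv hu hv
      exact h7 u v huv hu hv
  · rintro ⟨_, _, _, h7⟩ u v huv hu hv
    exact h7 u (Finset.mem_univ _) v (Finset.mem_univ _) huv hu hv

/-- the two orderings compare `u` and `v` differently -/
def Dis (σ σ' : Equiv.Perm (Fin n)) (u v : Fin n) : Prop := ¬ (σ v < σ u ↔ σ' v < σ' u)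

theorem lt_tau (σ : Equiv.Perm (Fin n)) {u v : Fin n} (h1 : v ≠ u) (h2 : v ≠ tau σ u) :
    (σ v < σ (tau σ u) ↔ σ v < σ u) ∧ (σ (tau σ u) < σ v ↔ σ u < σ v) := by
  have h3 : (σ v).val ≠ (σ u).val := fun h => h1 (σ.injective (Fin.ext h))
  have h4 : (σ v).val ≠ (rho n (σ u)).val := by
    intro h
    apply h2
    apply σ.injective
    rw [sigma_tau]
    exact Fin.ext h
  rw [sigma_tau, Fin.lt_def, Fin.lt_def, Fin.lt_def, Fin.lt_def]
  rw [rho_val] at h4 ⊢
  have := (σ u).isLt
  have := (σ v).isLt
  split_ifs at h4 ⊢ <;> omega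

theorem dis_symm (σ σ' : Equiv.Perm (Fin n)) {u v : Fin n} (h : u ≠ v) :
    Dis σ σ' u v ↔ Dis σ σ' v u := by
  unfold Dis
  have h1 : σ u ≠ σ v := fun h' => h (σ.injective h')
  have h2 : σ' u ≠ σ' v := fun h' => h (σ'.injective h')
  have h3 : σ v < σ u ↔ ¬ σ u < σ v := by
    rw [not_lt]; exact ⟨le_of_lt, fun h' => lt_of_le_of_ne h' (Ne.symm h1)⟩
  have h4 : σ' v < σ' u ↔ ¬ σ' u < σ' v := by
    rw [not_lt]; exact ⟨le_of_lt, fun h' => lt_of_le_of_ne h' (Ne.symm h2)⟩
  rw [h3, h4]
  tauto

theorem dis_tau (σ σ' : Equiv.Perm (Fin n)) (hτ : tau σ' = tau σ) {u v : Fin n} (h1 : v ≠ u)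
    (h2 : v ≠ tau σ u) : Dis σ σ' (tau σ u) v ↔ Dis σ σ' u v := by
  unfold Dis
  rw [(lt_tau σ h1 h2).1]
  have := (lt_tau σ' h1 (by rw [hτ]; exact h2)).1
  rw [hτ] at this
  rw [this]

theorem dis_tau' (σ σ' : Equiv.Perm (Fin n)) (hτ : tau σ' = tau σ) {u v : Fin n} (h1 : u ≠ v)
    (h2 : u ≠ tau σ v) : Dis σ σ' u (tau σ v) ↔ Dis σ σ' u v := by
  rw [dis_symm σ σ' h2, dis_tau σ σ' hτ h1 h2, dis_symm σ σ' h1.symm]

theorem dis_even (c : Fin n → ι) (σ σ' : Equiv.Perm (Fin n)) (hτ : tau σ' = tau σ)
    (hg : tau σ ∈ good c Finset.univ) [DecidablePred fun e : Fin n × Fin n => σ e.1 < σ e.2 ∧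
      c e.1 ≠ c e.2 ∧ e.2 ≠ tau σ e.1 ∧ Dis σ σ' e.1 e.2] :
    ((Finset.univ.filter fun e : Fin n × Fin n => σ e.1 < σ e.2 ∧ c e.1 ≠ c e.2 ∧
      e.2 ≠ tau σ e.1 ∧ Dis σ σ' e.1 e.2).card : ZMod 2) = 0 := by
  rw [mem_good] at hg
  obtain ⟨hinv, -, h3, h4⟩ := hg
  have h3' : ∀ u v, tau σ u = u → tau σ v = v → u = v := fun u v =>
    h3 u (Finset.mem_univ _) v (Finset.mem_univ _)
  have h4' : ∀ u v, c u = c v → Exposed c (tau σ) u → Exposed c (tau σ) v → u = v := fun u v =>
    h4 u (Finset.mem_univ _) v (Finset.mem_univ _)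
  rw [Finset.card_eq_sum_ones]
  push_cast
  refine Finset.sum_involution (fun e _ => if tau σ e.2 ≠ e.2 ∧ c e.1 ≠ c (tau σ e.2) then
    (e.1, tau σ e.2) else (tau σ e.1, e.2)) ?_ ?_ ?_ ?_
  · intro e _; decide
  · rintro ⟨u, v⟩ he _
    simp only [Finset.mem_filter, Finset.mem_univ, true_and] at he
    obtain ⟨e1, e2, e3, e4⟩ := he
    split_ifs with hcase
    · intro h
      exact hcase.1 (Prod.ext_iff.mp h).2
    · intro h
      have hu : tau σ u = u := (Prod.ext_iff.mp h).1
      push Not at hcase
      simp only at hcase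
      by_cases hv : tau σ v = v
      · have := h3' u v hu hv
        rw [this] at e2; exact e2 rfl
      · have h5 : c u = c (tau σ v) := hcase hv
        have h6 : Exposed c (tau σ) (tau σ v) := by
          right; rw [hinv, ← h5]; exact e2.symm
        have h7 := h4' u _ h5 (Or.inl hu) h6
        apply e3
        rw [h7, hinv]
  · rintro ⟨u, v⟩ he
    simp only [Finset.mem_filter, Finset.mem_univ, true_and] at he
    obtain ⟨e1, e2, e3, e4⟩ := he
    have huv : u ≠ v := fun h => e2 (by rw [h])
    have huv' : u ≠ tau σ v := by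
      intro h; apply e3; rw [h, hinv]
    split_ifs with hcase
    · simp only [Finset.mem_filter, Finset.mem_univ, true_and]
      simp only at hcase
      refine ⟨(lt_tau σ huv huv').1.mpr e1, hcase.2, ?_, ?_⟩
      · intro h; exact huv ((tau σ).injective h).symm
      · exact (dis_tau' σ σ' hτ huv huv').mpr e4
    · simp only [Finset.mem_filter, Finset.mem_univ, true_and]
      simp only at hcase
      push Not at hcase
      refine ⟨(lt_tau σ huv.symm e3).2.mpr e1, ?_, ?_, ?_⟩
      · by_cases hv : tau σ v = v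
        · intro h
          have h5 : Exposed c (tau σ) (tau σ u) := by
            right; rw [hinv, h]; exact e2
          exact e3 (h4' _ _ h h5 (Or.inl hv)).symm
        · have h5 : c u = c (tau σ v) := hcase hv
          have h6 : Exposed c (tau σ) (tau σ v) := by
            right; rw [hinv, ← h5]; exact e2.symm
          have h7 : ¬ Exposed c (tau σ) u := fun h8 => huv' (h4' _ _ h5 h8 h6)
          unfold Exposed at h7
          push Not at h7
          rw [h7.2]; exact e2
      · rw [hinv]; exact huv.symm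
      · exact (dis_tau σ σ' hτ huv.symm e3).mpr e4
  · rintro ⟨u, v⟩ he
    simp only [Finset.mem_filter, Finset.mem_univ, true_and] at he
    obtain ⟨e1, e2, e3, e4⟩ := he
    have huv' : u ≠ tau σ v := by
      intro h; apply e3; rw [h, hinv]
    by_cases hcase : tau σ v ≠ v ∧ c u ≠ c (tau σ v)
    · simp only [hcase, hinv, ne_eq, not_false_eq_true, and_self, if_true]
      rw [if_pos]
      exact ⟨fun h => hcase.1 h.symm, e2⟩
    · simp only [hcase, if_false]
      rw [if_neg]
      · rw [hinv]
      · push Not at hcase ⊢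
        intro hv
        have h5 : c u = c (tau σ v) := hcase hv
        have h6 : Exposed c (tau σ) (tau σ v) := by
          right; rw [hinv, ← h5]; exact e2.symm
        have h7 : ¬ Exposed c (tau σ) u := fun h8 => huv' (h4' _ _ h5 h8 h6)
        unfold Exposed at h7
        push Not at h7
        rw [h7.2]; exact h5

theorem rest_parity (c : Fin n → ι) (A : Fin n → Fin n → Prop) (h : IsOrientation c A)
    (σ σ' : Equiv.Perm (Fin n)) (hτ : tau σ' = tau σ) (hg : tau σ ∈ good c Finset.univ) :
    (rest A σ : ZMod 2) = (rest A σ' : ZMod 2) := by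
  classical
  obtain ⟨hc, ht, has⟩ := h
  have hrest : ∀ π : Equiv.Perm (Fin n), (rest A π : ZMod 2) =
      ∑ e : Fin n × Fin n with A e.1 e.2 ∧ e.2 ≠ tau π e.1, if π e.2 < π e.1 then 1 else 0 := by
    intro π
    unfold rest
    rw [Finset.card_filter, Finset.sum_filter]
    push_cast
    refine Finset.sum_congr rfl fun e _ => ?_
    by_cases h1 : A e.1 e.2 <;> by_cases h2 : e.2 ≠ tau π e.1 <;> by_cases h3 : π e.2 < π e.1 <;>
      simp_all
  have hsum : (rest A σ : ZMod 2) + (rest A σ' : ZMod 2) =
      ((Finset.univ.filter fun e : Fin n × Fin n => A e.1 e.2 ∧ e.2 ≠ tau σ e.1 ∧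
        Dis σ σ' e.1 e.2).card : ZMod 2) := by
    rw [hrest σ, hrest σ', hτ, ← Finset.sum_add_distrib, Finset.card_filter, Finset.sum_filter]
    push_cast
    refine Finset.sum_congr rfl fun e _ => ?_
    unfold Dis
    have h11 : (1 : ZMod 2) + 1 = 0 := by decide
    by_cases h1 : A e.1 e.2 <;> by_cases h2 : e.2 = tau σ e.1 <;> by_cases h3 : σ e.2 < σ e.1 <;>
      by_cases h4 : σ' e.2 < σ' e.1 <;> simp [h1, h2, h3, h4, h11]
  have hbij : (Finset.univ.filter fun e : Fin n × Fin n => A e.1 e.2 ∧ e.2 ≠ tau σ e.1 ∧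
        Dis σ σ' e.1 e.2).card = (Finset.univ.filter fun e : Fin n × Fin n => σ e.1 < σ e.2 ∧
        c e.1 ≠ c e.2 ∧ e.2 ≠ tau σ e.1 ∧ Dis σ σ' e.1 e.2).card := by
    refine Finset.card_bij' (fun e _ => if σ e.1 < σ e.2 then e else (e.2, e.1))
      (fun e _ => if A e.1 e.2 then e else (e.2, e.1)) ?_ ?_ ?_ ?_
    · rintro ⟨u, v⟩ he
      simp only [Finset.mem_filter, Finset.mem_univ, true_and] at he ⊢
      obtain ⟨e1, e2, e3⟩ := he
      have huv : u ≠ v := fun h' => hc _ _ e1 (by rw [h'])
      split_ifs with hlt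
      · exact ⟨hlt, hc _ _ e1, e2, e3⟩
      · refine ⟨lt_of_le_of_ne (not_lt.mp hlt) fun h' => huv (σ.injective h').symm,
          (hc _ _ e1).symm, ?_, (dis_symm σ σ' huv).mp e3⟩
        simp only
        intro h'
        apply e2
        rw [h', tau_tau]
    · rintro ⟨u, v⟩ he
      simp only [Finset.mem_filter, Finset.mem_univ, true_and] at he ⊢
      obtain ⟨e0, e1, e2, e3⟩ := he
      have huv : u ≠ v := fun h' => e1 (by rw [h'])
      split_ifs with hA
      · exact ⟨hA, e2, e3⟩
      · refine ⟨(ht _ _ e1).resolve_left hA, ?_, (dis_symm σ σ' huv).mp e3⟩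
        simp only
        intro h'
        apply e2
        rw [h', tau_tau]
    · rintro ⟨u, v⟩ he
      simp only [Finset.mem_filter, Finset.mem_univ, true_and] at he
      obtain ⟨e1, e2, e3⟩ := he
      by_cases hlt : σ u < σ v
      · simp [hlt, e1]
      · have := has _ _ e1
        simp [hlt, this]
    · rintro ⟨u, v⟩ he
      simp only [Finset.mem_filter, Finset.mem_univ, true_and] at he
      obtain ⟨e0, e1, e2, e3⟩ := he
      by_cases hA : A u v
      · simp [hA, e0]
      · have := not_lt.mpr e0.le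
        simp [hA, this]
  rw [hbij, dis_even c σ σ' hτ hg] at hsum
  have h2 : ∀ a b : ZMod 2, a + b = 0 → a = b := by decide
  exact h2 _ _ hsum

theorem exists_tau (c : Fin n → ι) (τ : Equiv.Perm (Fin n)) (hg : τ ∈ good c Finset.univ) :
    ∃ σ, tau σ = τ := by
  rw [mem_good] at hg
  obtain ⟨hinv, -, h3, -⟩ := hg
  have key : ∀ π : Equiv.Perm (Fin n), (∀ u, π (π u) = u) → (∀ u v, π u = u → π v = v → u = v) →
      π.cycleType = Multiset.replicate (n / 2) 2 := by
    intro π h1 h2
    have hp : π ^ 2 = 1 := by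
      ext u
      rw [sq, Equiv.Perm.mul_apply, h1, Equiv.Perm.one_apply]
    have : Fact (Nat.Prime 2) := ⟨Nat.prime_two⟩
    have h4 := Equiv.Perm.cycleType_of_pow_prime_eq_one hp
    have h5 := π.sum_cycleType
    rw [h4, Multiset.sum_replicate, smul_eq_mul] at h5
    have h6 : π.support.card + (Finset.univ.filter fun u => π u = u).card = n := by
      have h7 : (Finset.univ.filter fun u => π u = u) = π.supportᶜ := by
        ext u
        simp
      rw [h7, Finset.card_add_card_compl, Fintype.card_fin]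
    have h8 : (Finset.univ.filter fun u => π u = u).card ≤ 1 := by
      rw [Finset.card_le_one]
      intro u hu v hv
      simp only [Finset.mem_filter, Finset.mem_univ, true_and] at hu hv
      exact h2 u v hu hv
    have h9 : π.cycleType.card = n / 2 := by omega
    rw [h4, h9]
  have hτ := key τ hinv (fun u v => h3 u (Finset.mem_univ _) v (Finset.mem_univ _))
  have hρ := key (rho n) rho_rho (fun u v => rho_fix)
  have hconj : IsConj (rho n) τ := Equiv.Perm.isConj_iff_cycleType_eq.mpr (hρ.trans hτ.symm)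
  obtain ⟨g, hg⟩ := isConj_iff.mp hconj
  refine ⟨g⁻¹, ?_⟩
  unfold tau
  rw [inv_inv]
  exact hg

theorem fiber_card (σ₀ : Equiv.Perm (Fin n)) :
    (Finset.univ.filter fun σ : Equiv.Perm (Fin n) => tau σ = tau σ₀).card =
      (Finset.univ.filter fun σ : Equiv.Perm (Fin n) => tau σ = rho n).card := by
  refine Finset.card_bij' (fun σ _ => σ * σ₀⁻¹) (fun σ _ => σ * σ₀) ?_ ?_ ?_ ?_
  · intro σ hσ
    simp only [Finset.mem_filter, Finset.mem_univ, true_and] at hσ ⊢
    have h1 : tau (σ * σ₀⁻¹) = σ₀ * tau σ * σ₀⁻¹ := by unfold tau; group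
    rw [h1, hσ]; unfold tau; group
  · intro σ hσ
    simp only [Finset.mem_filter, Finset.mem_univ, true_and] at hσ ⊢
    have h1 : tau (σ * σ₀) = σ₀⁻¹ * tau σ * σ₀ := by unfold tau; group
    rw [h1, hσ]; rfl
  · intro σ _; simp
  · intro σ _; simp

theorem sum_ne_zero (c : Fin n → ι) (A : Fin n → Fin n → Prop) (h : IsOrientation c A) :
    ∑ σ : Equiv.Perm (Fin n) with ein A n σ = oddParts c / 2, (-1 : ℤ) ^ rest A σ ≠ 0 := by
  classical
  have h1 : (Finset.univ.filter fun σ : Equiv.Perm (Fin n) => ein A n σ = oddParts c / 2) =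
      Finset.univ.filter fun σ : Equiv.Perm (Fin n) => tau σ ∈ good c Finset.univ := by
    ext σ
    simp only [Finset.mem_filter, Finset.mem_univ, true_and]
    exact (ein_bound c A h σ).2
  rw [h1]
  choose! s hs using exists_tau (n := n) c
  set K := (Finset.univ.filter fun σ : Equiv.Perm (Fin n) => tau σ = rho n).card with hK
  have hKpos : 0 < K := by
    rw [hK, Finset.card_pos]
    refine ⟨1, ?_⟩
    rw [Finset.mem_filter]
    exact ⟨Finset.mem_univ _, by simp [tau]⟩
  have h2 : ∑ σ : Equiv.Perm (Fin n) with tau σ ∈ good c Finset.univ, (-1 : ℤ) ^ rest A σ =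
      (K : ℤ) * ∑ τ ∈ good c Finset.univ, (-1 : ℤ) ^ rest A (s τ) := by
    rw [← Finset.sum_fiberwise_of_maps_to (g := tau) (t := good c Finset.univ)
      (fun σ hσ => (Finset.mem_filter.mp hσ).2), Finset.mul_sum]
    refine Finset.sum_congr rfl fun τ hτ => ?_
    have h3 : ∀ σ ∈ (Finset.univ.filter fun σ : Equiv.Perm (Fin n) =>
        tau σ ∈ good c Finset.univ).filter (fun σ => tau σ = τ),
        (-1 : ℤ) ^ rest A σ = (-1 : ℤ) ^ rest A (s τ) := by
      intro σ hσ
      simp only [Finset.mem_filter, Finset.mem_univ, true_and] at hσ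
      have h4 := rest_parity c A h σ (s τ) ((hs τ hτ).trans hσ.2.symm) hσ.1
      have h5 := (ZMod.natCast_eq_natCast_iff' _ _ 2).mp h4
      rw [neg_one_pow_eq_pow_mod_two, h5, ← neg_one_pow_eq_pow_mod_two]
    rw [Finset.sum_congr rfl h3, Finset.sum_const, nsmul_eq_mul]
    congr 2
    rw [hK, ← fiber_card (s τ), hs τ hτ]
    congr 1
    ext σ
    simp only [Finset.mem_filter, Finset.mem_univ, true_and]
    exact ⟨fun h => h.2, fun h => ⟨h ▸ hτ, h⟩⟩
  rw [h2]
  refine mul_ne_zero (by exact_mod_cast hKpos.ne') ?_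
  intro h0
  have h3 := congrArg (fun z : ℤ => (z : ZMod 2)) h0
  simp only [Int.cast_sum, Int.cast_pow, Int.cast_neg, Int.cast_one, Int.cast_zero] at h3
  have h4 : (-1 : ZMod 2) = 1 := by decide
  simp only [h4, one_pow, Finset.sum_const, nsmul_eq_mul, mul_one] at h3
  rw [good_odd] at h3
  exact absurd h3 (by decide)

/-- the Eulerian polynomial of the digraph with arc relation `A` -/
noncomputable def eulerian (A : Fin n → Fin n → Prop) : ℤ[X] :=
  ∑ σ : Equiv.Perm (Fin n), X ^ des A σ

/-- **Multiplicity of `-1`.** For every orientation `A` of a complete multipartite graph on the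
vertex set `Fin n` (parts: the nonempty fibres of `c`), the multiplicity of `-1` as a root of the
Eulerian polynomial of `A` is `⌊r / 2⌋`, where `r` is the number of parts of odd size. -/
theorem result (c : Fin n → ι) (A : Fin n → Fin n → Prop) (h : IsOrientation c A) :
    (eulerian A).rootMultiplicity (-1) = oddParts c / 2 := by
  classical
  have hA : ∀ u, ¬ A u u := fun u hu => h.1 u u hu rfl
  set k := oddParts c / 2 with hk
  have h1 : (eulerian A).map (Int.castRingHom ℚ) =
      ∑ σ : Equiv.Perm (Fin n), (X : ℚ[X]) ^ rest A σ * Y ^ ein A n σ := by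
    unfold eulerian
    rw [Polynomial.map_sum]
    simp only [Polynomial.map_pow, Polynomial.map_X]
    rw [sum_des A hA h.2.2 n]
    simp_rw [inter_eq A hA]
  set Q : ℚ[X] := ∑ σ : Equiv.Perm (Fin n), (X : ℚ[X]) ^ rest A σ * Y ^ (ein A n σ - k) with hQ
  have h2 : (eulerian A).map (Int.castRingHom ℚ) = Y ^ k * Q := by
    rw [h1, hQ, Finset.mul_sum]
    refine Finset.sum_congr rfl fun σ _ => ?_
    have h3 : k ≤ ein A n σ := (ein_bound c A h σ).1
    have h4 : ein A n σ = k + (ein A n σ - k) := by omega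
    conv_lhs => rw [h4, pow_add]
    ring
  have hY : Y.eval (-1) = 0 := by unfold Y; simp
  have h5 : Q.eval (-1) ≠ 0 := by
    rw [hQ, Polynomial.eval_finsetSum]
    have h6 : ∑ σ : Equiv.Perm (Fin n),
        ((X : ℚ[X]) ^ rest A σ * Y ^ (ein A n σ - k)).eval (-1) =
        ((∑ σ : Equiv.Perm (Fin n) with ein A n σ = k, (-1 : ℤ) ^ rest A σ : ℤ) : ℚ) := by
      push_cast
      rw [Finset.sum_filter]
      refine Finset.sum_congr rfl fun σ _ => ?_
      rw [Polynomial.eval_mul, Polynomial.eval_pow, Polynomial.eval_pow, Polynomial.eval_X, hY]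
      have h3 : k ≤ ein A n σ := (ein_bound c A h σ).1
      by_cases h7 : ein A n σ = k
      · rw [if_pos h7, h7, Nat.sub_self, pow_zero, mul_one]
      · rw [if_neg h7, zero_pow (by omega), mul_zero]
    rw [h6]
    exact_mod_cast sum_ne_zero c A h
  have hQ0 : Q ≠ 0 := by
    intro h0; rw [h0] at h5; simp at h5
  have hYX : Y = C (1 / 2) * (X - C (-1)) := by
    unfold Y; simp [add_comm]
  rw [Polynomial.eq_rootMultiplicity_map (f := Int.castRingHom ℚ) Int.cast_injective, h2]
  have hm1 : (Int.castRingHom ℚ) (-1) = (-1 : ℚ) := by simp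
  rw [hm1, hYX, mul_pow, ← C_pow, mul_assoc]
  have hX : (X - C (-1 : ℚ)) ^ k ≠ 0 := pow_ne_zero _ (Polynomial.X_sub_C_ne_zero _)
  have hC : (C ((1 / 2 : ℚ) ^ k) : ℚ[X]) ≠ 0 := by
    rw [Ne, Polynomial.C_eq_zero]; positivity
  rw [Polynomial.rootMultiplicity_mul (mul_ne_zero hC (mul_ne_zero hX hQ0)),
    Polynomial.rootMultiplicity_mul (mul_ne_zero hX hQ0), Polynomial.rootMultiplicity_C,
    Polynomial.rootMultiplicity_X_sub_C_pow, Polynomial.rootMultiplicity_eq_zero h5]
  omega

end final

end Pool.Agent.Results.MP_a2af9e_co.Multipartite
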